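import Pool.Agent.helper19.FR.Spec

/-!
# Project FR (MP_bf63dc_nt), row PRJ: projection of a kernel onto finitely many orthonormal functions
-/

set_option autoImplicit false

namespace Pool.Agent.FR

open Finset Real Pool.Agent.AT Pool.Agent.OM Pool.Agent.helper85.FC

theorem PRJ_add {α : Type} [Fintype α] (f g : α → ℝ) : mean (fun x => f x + g x) = mean f + mean g := by
  rw [mean, mean, mean, sum_add_distrib, add_div]

theorem PRJ_sub {α : Type} [Fintype α] (f g : α → ℝ) : mean (fun x => f x - g x) = mean f - mean g := by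
  rw [mean, mean, mean, sum_sub_distrib, sub_div]

theorem PRJ_mul {α : Type} [Fintype α] (c : ℝ) (f : α → ℝ) : mean (fun x => c * f x) = c * mean f := by
  rw [mean, mean, ← mul_sum, mul_div_assoc]

theorem PRJ_sum {α β : Type} [Fintype α] [Fintype β] (f : β → α → ℝ) :
    mean (fun x => ∑ i, f i x) = ∑ i, mean (f i) := by
  simp only [mean]
  rw [sum_comm, Finset.sum_div]

theorem PRJ_mono {α : Type} [Fintype α] {f g : α → ℝ} (h : ∀ x, f x ≤ g x) : mean f ≤ mean g :=
  div_le_div_of_nonneg_right (sum_le_sum fun x _ => h x) (Nat.cast_nonneg _)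

theorem PRJ_nonneg {α : Type} [Fintype α] {f : α → ℝ} (h : ∀ x, 0 ≤ f x) : 0 ≤ mean f :=
  div_nonneg (sum_nonneg fun x _ => h x) (Nat.cast_nonneg _)

theorem PRJ_const {α : Type} [Fintype α] [Nonempty α] (c : ℝ) : mean (fun _ : α => c) = c := by
  rw [mean, sum_const, card_univ, nsmul_eq_mul]
  have : (Fintype.card α : ℝ) ≠ 0 := by exact_mod_cast Fintype.card_ne_zero
  field_simp

theorem PRJ_abs {α : Type} [Fintype α] (f : α → ℝ) : |mean f| ≤ mean (fun x => |f x|) := by
  rw [mean, mean, abs_div, abs_of_nonneg (Nat.cast_nonneg _ : (0 : ℝ) ≤ (Fintype.card α : ℝ))]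
  exact div_le_div_of_nonneg_right (abs_sum_le_sum_abs _ _) (Nat.cast_nonneg _)

theorem PRJ_le_const {α : Type} [Fintype α] [Nonempty α] {f : α → ℝ} {c : ℝ} (h : ∀ x, f x ≤ c) : mean f ≤ c := by
  have h1 := PRJ_mono h
  rwa [PRJ_const] at h1

theorem PRJ_prod {X : ℕ} (F : Fin X → Fin X → ℝ) :
    mean (fun z : Fin X × Fin X => F z.1 z.2) = mean fun y => mean fun x => F x y := by
  simp only [mean]
  rw [Fintype.sum_prod_type, sum_comm, Fintype.card_prod, ← Finset.sum_div, Nat.cast_mul, div_div]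

theorem PRJ_prod' {X : ℕ} (F : Fin X → Fin X → ℝ) :
    mean (fun z : Fin X × Fin X => F z.1 z.2) = mean fun x => mean fun y => F x y := by
  simp only [mean]
  rw [Fintype.sum_prod_type, Fintype.card_prod, ← Finset.sum_div, Nat.cast_mul, div_div]

section

variable {n X : ℕ} {e : Fin n → Fin X → ℝ}

/-- the mean of a product with one of the functions -/
theorem PRJ_in (he : ∀ i l : Fin n, mean (fun x => e i x * e l x) = if i = l then 1 else 0) (a : Fin n → ℝ) (l : Fin n) :
    mean (fun x => (∑ i, a i * e i x) * e l x) = a l := by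
  have h1 : (fun x => (∑ i, a i * e i x) * e l x) = fun x => ∑ i, a i * (e i x * e l x) := by
    funext x
    rw [sum_mul]
    exact sum_congr rfl fun i _ => by ring
  rw [h1, PRJ_sum]
  have h2 : ∀ i, mean (fun x => a i * (e i x * e l x)) = if i = l then a i else 0 := by
    intro i
    rw [PRJ_mul, he]
    split_ifs <;> ring
  rw [sum_congr rfl fun i _ => h2 i, sum_ite_eq' univ l a, if_pos (mem_univ _)]

theorem PRJ_sq (he : ∀ i l : Fin n, mean (fun x => e i x * e l x) = if i = l then 1 else 0) (a : Fin n → ℝ) :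
    mean (fun x => (∑ i, a i * e i x) ^ 2) = ∑ i, a i ^ 2 := by
  have h1 : (fun x => (∑ i, a i * e i x) ^ 2) = fun x => ∑ l, a l * ((∑ i, a i * e i x) * e l x) := by
    funext x
    rw [pow_two, mul_sum]
    exact sum_congr rfl fun i _ => by ring
  rw [h1, PRJ_sum]
  refine sum_congr rfl fun l _ => ?_
  rw [PRJ_mul, PRJ_in he]
  ring

/-- the rest is orthogonal to the functions -/
theorem PRJ_orth (he : ∀ i l : Fin n, mean (fun x => e i x * e l x) = if i = l then 1 else 0) (g : Fin X → ℝ) (l : Fin n) :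
    mean (fun x => (g x - ∑ i, mean (fun y => g y * e i y) * e i x) * e l x) = 0 := by
  have h1 : (fun x => (g x - ∑ i, mean (fun y => g y * e i y) * e i x) * e l x) =
      fun x => g x * e l x - (∑ i, mean (fun y => g y * e i y) * e i x) * e l x := by
    funext x
    ring
  rw [h1, PRJ_sub, PRJ_in he, sub_self]

/-- Bessel -/
theorem PRJ_bes (he : ∀ i l : Fin n, mean (fun x => e i x * e l x) = if i = l then 1 else 0) (g : Fin X → ℝ) :
    mean (fun x => (g x - ∑ i, mean (fun y => g y * e i y) * e i x) ^ 2) + ∑ i, mean (fun y => g y * e i y) ^ 2 =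
      mean (fun x => g x ^ 2) := by
  obtain ⟨a, ha⟩ : ∃ a : Fin n → ℝ, ∀ i, a i = mean (fun y => g y * e i y) := ⟨_, fun i => rfl⟩
  simp only [← ha]
  have h1 : (fun x => (g x - ∑ i, a i * e i x) ^ 2) =
      fun x => (g x ^ 2 - 2 * ∑ l, a l * (g x * e l x)) + (∑ i, a i * e i x) ^ 2 := by
    funext x
    have h2 : ∑ l, a l * (g x * e l x) = g x * ∑ i, a i * e i x := by
      rw [mul_sum]
      exact sum_congr rfl fun i _ => by ring
    rw [h2]
    ring
  rw [h1, PRJ_add, PRJ_sq he, PRJ_sub, PRJ_mul 2 (fun x => ∑ l, a l * (g x * e l x)), PRJ_sum]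
  have h3 : ∀ l, mean (fun x => a l * (g x * e l x)) = a l ^ 2 := by
    intro l
    rw [PRJ_mul, ← ha]
    ring
  rw [sum_congr rfl fun l _ => h3 l]
  ring

/-- the functions have mean absolute value at most 1 -/
theorem PRJ_l1 [Nonempty (Fin X)] {f : Fin X → ℝ} (hf : mean (fun x => f x ^ 2) ≤ 1) : mean (fun x => |f x|) ≤ 1 := by
  have h1 : ∀ x, |f x| ≤ 1 / 2 + 1 / 2 * f x ^ 2 := by
    intro x
    have h2 := sq_nonneg (|f x| - 1)
    have h3 := sq_abs (f x)
    nlinarith
  have h2 := PRJ_mono h1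
  rw [PRJ_add (fun _ => 1 / 2) (fun x => 1 / 2 * f x ^ 2), PRJ_const, PRJ_mul] at h2
  linarith

end

theorem PRJ : PRJ_stmt := by
  intro n X κ e B hX hκ he heb hB
  have hne : Nonempty (Fin X) := ⟨⟨0, hX⟩⟩
  have hee : ∀ i, mean (fun x => e i x ^ 2) ≤ 1 := by
    intro i
    have h1 := he i i
    rw [if_pos rfl] at h1
    have h2 : (fun x => e i x ^ 2) = fun x => e i x * e i x := by
      funext x
      ring
    rw [h2, h1]
  have hκ' : 0 ≤ 1 / κ := by positivity
  -- the coefficients
  obtain ⟨c, hc⟩ : ∃ c : Fin n → Fin X → ℝ, ∀ i y, c i y = mean (fun x => B x y * e i x) := ⟨_, fun i y => rfl⟩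
  obtain ⟨β, hβ⟩ : ∃ β : Fin n → Fin n → ℝ, ∀ i l, β i l = mean (fun y => c i y * e l y) := ⟨_, fun i y => rfl⟩
  have hβ' : ∀ i l, mean (fun z : Fin X × Fin X => e i z.1 * e l z.2 * B z.1 z.2) = β i l := by
    intro i l
    rw [PRJ_prod (fun x y => e i x * e l y * B x y), hβ]
    have h1 : (fun y => mean fun x => e i x * e l y * B x y) = fun y => c i y * e l y := by
      funext y
      have h2 : (fun x => e i x * e l y * B x y) = fun x => e l y * (B x y * e i x) := by
        funext x
        ring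
      rw [h2, PRJ_mul, ← hc]
      ring
    rw [h1]
  have hc1 : ∀ i y, |c i y| ≤ 1 := by
    intro i y
    rw [hc]
    refine (PRJ_abs _).trans ((PRJ_mono fun x => ?_).trans (PRJ_l1 (hee i)))
    rw [abs_mul]
    have h1 := mul_le_mul_of_nonneg_right (hB x y) (abs_nonneg (e i x))
    linarith
  have hβ1 : ∀ i l, |β i l| ≤ 1 := by
    intro i l
    rw [hβ]
    refine (PRJ_abs _).trans ((PRJ_mono fun x => ?_).trans (PRJ_l1 (hee l)))
    rw [abs_mul]
    have h1 := mul_le_mul_of_nonneg_right (hc1 i x) (abs_nonneg (e l x))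
    linarith
  obtain ⟨d, hd⟩ : ∃ d : Fin n → Fin X → ℝ, ∀ i y, d i y = c i y - ∑ l, β i l * e l y := ⟨_, fun i y => rfl⟩
  have hn0 : (0 : ℝ) ≤ n / κ := by positivity
  have hsum1 : ∀ (a : Fin n → ℝ) (x : Fin X), (∀ i, |a i| ≤ 1) → |∑ i, a i * e i x| ≤ n / κ := by
    intro a x ha
    refine (abs_sum_le_sum_abs _ _).trans ?_
    have h1 : ∀ i ∈ (univ : Finset (Fin n)), |a i * e i x| ≤ 1 / κ := by
      intro i _
      rw [abs_mul]
      calc |a i| * |e i x| ≤ 1 * (1 / κ) := mul_le_mul (ha i) (heb i x) (abs_nonneg _) zero_le_one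
        _ = 1 / κ := one_mul _
    refine (sum_le_sum h1).trans (le_of_eq ?_)
    rw [sum_const, card_univ, Fintype.card_fin, nsmul_eq_mul, mul_one_div]
  have hd1 : ∀ i y, |d i y| ≤ 1 + n / κ := by
    intro i y
    rw [hd]
    exact (abs_sub _ _).trans (add_le_add (hc1 i y) (hsum1 (β i) y (hβ1 i)))
  refine ⟨fun x y => B x y - ∑ i, c i y * e i x, fun x y => ∑ i, d i y * e i x, ?_, ?_, ?_, ?_, ?_, ?_⟩
  · intro x y
    simp only [hβ']
    have h1 : ∑ i, ∑ l, β i l * (e i x * e l y) = ∑ i, (∑ l, β i l * e l y) * e i x := by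
      refine sum_congr rfl fun i _ => ?_
      rw [sum_mul]
      exact sum_congr rfl fun l _ => by ring
    have h2 : ∑ i, d i y * e i x = ∑ i, c i y * e i x - ∑ i, (∑ l, β i l * e l y) * e i x := by
      rw [← sum_sub_distrib]
      refine sum_congr rfl fun i _ => ?_
      rw [hd]
      ring
    rw [h1, h2]
    ring
  · intro y l
    have h1 := PRJ_orth he (fun x => B x y) l
    simp only [← hc] at h1
    exact h1
  · intro x l
    have h1 : (fun y => (∑ i, d i y * e i x) * e l y) = fun y => ∑ i, e i x * (d i y * e l y) := by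
      funext y
      rw [sum_mul]
      exact sum_congr rfl fun i _ => by ring
    show mean (fun y => (∑ i, d i y * e i x) * e l y) = 0
    rw [h1, PRJ_sum]
    refine sum_eq_zero fun i _ => ?_
    rw [PRJ_mul]
    have h2 := PRJ_orth he (c i) l
    simp only [← hβ, ← hd] at h2
    rw [h2, mul_zero]
  · intro x y
    constructor
    · have h1 : |B x y - ∑ i, c i y * e i x| ≤ 1 + n / κ :=
        (abs_sub _ _).trans (add_le_add (hB x y) (hsum1 (fun i => c i y) x fun i => hc1 i y))
      have h2 : 1 + (n : ℝ) / κ ≤ (1 + n / κ) ^ 2 := by nlinarith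
      exact h1.trans h2
    · have h1 : |∑ i, d i y * e i x| ≤ ∑ i : Fin n, (1 + n / κ) * (1 / κ) := by
        refine (abs_sum_le_sum_abs _ _).trans (sum_le_sum fun i _ => ?_)
        rw [abs_mul]
        exact mul_le_mul (hd1 i y) (heb i x) (abs_nonneg _) (by linarith)
      rw [sum_const, card_univ, Fintype.card_fin, nsmul_eq_mul] at h1
      have h2 : (n : ℝ) * ((1 + n / κ) * (1 / κ)) = (n / κ) * (1 + n / κ) := by ring
      rw [h2] at h1
      refine h1.trans ?_
      nlinarith
  · rw [PRJ_prod (fun x y => (B x y - ∑ i, c i y * e i x) ^ 2)]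
    refine PRJ_le_const fun y => ?_
    have h1 := PRJ_bes he (fun x => B x y)
    simp only [← hc] at h1
    have h2 : mean (fun x => B x y ^ 2) ≤ 1 := PRJ_le_const fun x => by
      have h3 := hB x y
      rw [← sq_abs]
      nlinarith [abs_nonneg (B x y)]
    have h3 : 0 ≤ ∑ i, c i y ^ 2 := sum_nonneg fun i _ => sq_nonneg _
    linarith
  · rw [PRJ_prod (fun x y => (∑ i, d i y * e i x) ^ 2)]
    have h1 : (fun y => mean fun x => (∑ i, d i y * e i x) ^ 2) = fun y => ∑ i, d i y ^ 2 := by
      funext y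
      exact PRJ_sq he (fun i => d i y)
    rw [h1, PRJ_sum (fun i y => d i y ^ 2)]
    have h2 : ∀ i, mean (fun y => d i y ^ 2) ≤ mean (fun y => c i y ^ 2) := by
      intro i
      have h3 := PRJ_bes he (c i)
      simp only [← hβ, ← hd] at h3
      have h4 : 0 ≤ ∑ l, β i l ^ 2 := sum_nonneg fun l _ => sq_nonneg _
      linarith
    refine (sum_le_sum fun i _ => h2 i).trans ?_
    rw [← PRJ_sum (fun i y => c i y ^ 2)]
    refine PRJ_le_const fun y => ?_
    have h3 := PRJ_bes he (fun x => B x y)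
    simp only [← hc] at h3
    have h4 : mean (fun x => B x y ^ 2) ≤ 1 := PRJ_le_const fun x => by
      have h3 := hB x y
      rw [← sq_abs]
      nlinarith [abs_nonneg (B x y)]
    have h5 : 0 ≤ mean (fun x => (B x y - ∑ i, c i y * e i x) ^ 2) := PRJ_nonneg fun x => sq_nonneg _
    linarith

end Pool.Agent.FR
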